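import Pool.Agent.H37.CNU.Stmts

/-!
# Row UND: the degree of `k(x, y, u)` over `k(t)`
-/

set_option autoImplicit false

namespace Pool.CND

open Finset Matrix

/-- elements of positive order are transcendental -/
private theorem und_pos {k L : Type} [Field k] [Field L] [Algebra k L] (P : Place k L) {x : L}
    (hx : x ≠ 0) (h : 1 ≤ P.ord x) : Transcendental k x := by
  intro halg
  have hint : IsIntegral k x := halg.isIntegral
  have h0 : (minpoly k x).coeff 0 ≠ 0 := minpoly.coeff_zero_ne_zero hint hx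
  have hge : ∀ r : Polynomial k, P.Ge (Polynomial.aeval x r) 0 := by
    intro r
    induction r using Polynomial.induction_on' with
    | add a b ha hb => rw [map_add]; exact P.ge_add ha hb
    | monomial n a =>
      rw [Polynomial.aeval_monomial]
      have h1 : P.Ge (x ^ n) 0 := Or.inr (by rw [P.ord_pow hx]; positivity)
      have := P.ge_mul (P.ge_const a) h1
      rwa [add_zero] at this
  have h1 := Polynomial.divX_mul_X_add (minpoly k x)
  have h2 : Polynomial.aeval x (minpoly k x) = 0 := minpoly.aeval k x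
  rw [← h1, map_add, map_mul, Polynomial.aeval_X, Polynomial.aeval_C] at h2
  have h3 : P.Ge (algebraMap k L ((minpoly k x).coeff 0)) 1 := by
    have h4 : algebraMap k L ((minpoly k x).coeff 0) =
        -(Polynomial.aeval x (minpoly k x).divX * x) := by linear_combination h2
    rw [h4]
    refine P.ge_neg ?_
    have h5 := P.ge_mul (hge (minpoly k x).divX) (Or.inr h : P.Ge x 1)
    rwa [zero_add] at h5
  have h6 : algebraMap k L ((minpoly k x).coeff 0) ≠ 0 := by
    rw [Ne, map_eq_zero]
    exact h0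
  have h7 := (P.ge_iff h6 1).1 h3
  rw [P.ord_const _ h0] at h7
  omega

/-- elements of nonzero order are transcendental -/
private theorem und_tr {k L : Type} [Field k] [Field L] [Algebra k L] (P : Place k L) {x : L}
    (hx : x ≠ 0) (h : P.ord x ≠ 0) : Transcendental k x := by
  rcases lt_or_gt_of_ne h with h | h
  · intro halg
    refine und_pos P (inv_ne_zero hx) ?_ halg.inv
    rw [P.ord_inv hx]
    omega
  · exact und_pos P hx (by omega)

theorem und_thm (hR : S_UNR) (hV : S_UNV) (hT : S_UNT) (hM : S_SLM) : S_UND := by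
  intro p k Ω _ _ _ Λ f q e x y u t hp hcp hf hq he hx hy hu hox hoy hou hxy hux ht
  have hq2 : 2 ≤ q := by
    rw [hq]
    exact le_trans hp.two_le (Nat.le_self_pow (by omega) p)
  have hqq : 2 * q ≤ q ^ 2 := by nlinarith
  have he1 : 1 ≤ e := by omega
  haveI hcΩ : CharP Ω p := charP_of_injective_algebraMap (algebraMap k Ω).injective p
  obtain ⟨-, hrel⟩ := hR p Ω f q e x y u t hp hcΩ hf hq he hu hxy hux ht
  have hxt : Transcendental k x := by
    refine und_tr Λ hx ?_
    rw [hox]
    have : 0 < q * e := Nat.mul_pos (by omega) he1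
    omega
  have hvd := hV k Ω Λ q e x y u hq2 he hx hy hu hox hoy hou hxy hux
  obtain ⟨h1, h2⟩ := hT k Ω q e x (t ^ e) hq2 he hxt hrel
  -- `t ^ e` is transcendental
  have hTt : Transcendental k (t ^ e) := by
    -- order of `Δ`
    have hoxq : Λ.ord (x ^ (q ^ 2)) = -((q ^ 3 * e : ℕ) : ℤ) := by
      rw [Λ.ord_pow hx, hox]
      push_cast
      ring
    have hlt : -((q ^ 3 * e : ℕ) : ℤ) + 1 ≤ -((q * e : ℕ) : ℤ) := by
      have h3 : q * e + 1 ≤ q ^ 3 * e := by
        have h4 : q + 1 ≤ q ^ 3 := by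
          have : q ^ 3 = q ^ 2 * q := by ring
          nlinarith
        calc q * e + 1 ≤ (q + 1) * e := by nlinarith
          _ ≤ q ^ 3 * e := Nat.mul_le_mul_right _ h4
      omega
    have hDge : Λ.Ge (-x) (Λ.ord (x ^ (q ^ 2)) + 1) := by
      refine Or.inr ?_
      rw [Λ.ord_neg, hox, hoxq]
      exact hlt
    obtain ⟨hD0, hDo⟩ := Λ.ord_add_of_lt (pow_ne_zero (q ^ 2) hx) hDge
    rw [← sub_eq_add_neg] at hD0 hDo
    rw [hoxq] at hDo
    set D := x ^ (q ^ 2) - x with hD
    have hDneg : Λ.ord D ≤ -1 := by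
      rw [hDo]
      have : 0 < q ^ 3 * e := Nat.mul_pos (by positivity) he1
      omega
    obtain ⟨a, ha⟩ : ∃ a, q ^ 3 = q + a := by
      refine ⟨q ^ 3 - q, ?_⟩
      have : q ≤ q ^ 3 := Nat.le_self_pow (by norm_num) q
      omega
    obtain ⟨b, hb⟩ : ∃ b, q ^ 3 + q ^ 2 = q + 1 + b := by
      refine ⟨q ^ 3 + q ^ 2 - (q + 1), ?_⟩
      have : q ≤ q ^ 3 := Nat.le_self_pow (by norm_num) q
      omega
    obtain ⟨c, hc⟩ : ∃ c, q ^ 5 = q ^ 3 + c := by
      refine ⟨q ^ 5 - q ^ 3, ?_⟩
      have : q ^ 3 ≤ q ^ 5 := Nat.pow_le_pow_right (by omega) (by norm_num)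
      omega
    have ea : q ^ 3 - q = a := by omega
    have eb : q ^ 3 + q ^ 2 - q - 1 = b := by omega
    have ec : q ^ 5 - q ^ 3 = c := by omega
    rw [ea, eb, ec] at hrel
    have hab : a + 1 ≤ b := by omega
    have ha1 : 1 ≤ a := by
      have : q ^ 3 = q ^ 2 * q := by ring
      nlinarith
    have hobD : Λ.ord (D ^ b) = b * Λ.ord D := Λ.ord_pow hD0 b
    have hWge : Λ.Ge (1 + D ^ a) (Λ.ord (D ^ b) + 1) := by
      rw [hobD]
      have hb1 : (1 : ℤ) ≤ b := by exact_mod_cast (by omega : 1 ≤ b)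
      have hab' : (a : ℤ) + 1 ≤ b := by exact_mod_cast hab
      refine Λ.ge_add ?_ ?_
      · refine Or.inr ?_
        rw [Λ.ord_one]
        nlinarith
      · refine Or.inr ?_
        rw [Λ.ord_pow hD0]
        nlinarith
    obtain ⟨hW0, hWo⟩ := Λ.ord_add_of_lt (pow_ne_zero b hD0) hWge
    have eW : D ^ b + (1 + D ^ a) = 1 + D ^ a + D ^ b := by ring
    rw [eW] at hW0 hWo
    have hT0 : t ^ e ≠ 0 := by
      intro h
      rw [h, zero_mul] at hrel
      exact pow_ne_zero e hW0 hrel.symm
    refine und_tr Λ hT0 ?_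
    have h5 := congrArg Λ.ord hrel
    rw [Λ.ord_mul _ _ hT0 (pow_ne_zero c hD0), Λ.ord_pow hD0 c, Λ.ord_pow hW0 e, hWo, hobD] at h5
    have h6 : (e : ℤ) * b - c = q ^ 2 - 1 := by
      have e1 : (e : ℤ) = q ^ 2 + 1 - q := by
        have : (e : ℤ) + q = q ^ 2 + 1 := by exact_mod_cast he
        linarith
      have e2 : (b : ℤ) = q ^ 3 + q ^ 2 - q - 1 := by
        have : (q : ℤ) ^ 3 + q ^ 2 = q + 1 + b := by exact_mod_cast hb
        linarith
      have e3 : (c : ℤ) = q ^ 5 - q ^ 3 := by
        have : (q : ℤ) ^ 5 = q ^ 3 + c := by exact_mod_cast hc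
        linarith
      rw [e1, e2, e3]
      ring
    have h7 : Λ.ord (t ^ e) = ((q : ℤ) ^ 2 - 1) * Λ.ord D := by
      rw [← h6]
      linarith
    rw [h7]
    have h8 : (0 : ℤ) < (q : ℤ) ^ 2 - 1 := by
      have : (4 : ℤ) ≤ (q : ℤ) ^ 2 := by
        have : (2 : ℤ) ≤ q := by exact_mod_cast hq2
        nlinarith
      linarith
    have h9 : Λ.ord D < 0 := by omega
    exact ne_of_lt (mul_neg_of_pos_of_neg h8 h9)
  have htt : Transcendental k t := fun h => hTt (h.pow e)
  obtain ⟨h3, h4⟩ := hM k Ω e t he1 htt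
  have h6 : IntermediateField.adjoin k {x} ≤ IntermediateField.adjoin k {x, y, u} :=
    IntermediateField.adjoin.mono k _ _ (by simp)
  have h7 : IntermediateField.adjoin k {t} ≤ IntermediateField.adjoin k {x, y, u} := by
    rw [IntermediateField.adjoin_simple_le_iff, ht]
    have mx : x ∈ IntermediateField.adjoin k {x, y, u} :=
      IntermediateField.subset_adjoin k _ (by simp)
    have my : y ∈ IntermediateField.adjoin k {x, y, u} :=
      IntermediateField.subset_adjoin k _ (by simp)
    have mu : u ∈ IntermediateField.adjoin k {x, y, u} :=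
      IntermediateField.subset_adjoin k _ (by simp)
    exact sub_mem (add_mem
      (mul_mem (div_mem (one_mem _) mu) (pow_mem (div_mem my mu) _))
      (mul_mem (div_mem my mu) (pow_mem (div_mem (one_mem _) mu) _)))
      (pow_mem (div_mem mx mu) _)
  have e1 := IntermediateField.relfinrank_mul_relfinrank h1 h6
  have e2 := IntermediateField.relfinrank_mul_relfinrank h3 h7
  rw [h2, hvd] at e1
  rw [h4] at e2
  have e3 : e * IntermediateField.relfinrank (IntermediateField.adjoin k {t})
      (IntermediateField.adjoin k {x, y, u}) = e * (q ^ 3 * ((q ^ 2 - 1) * (q ^ 3 + 1))) := by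
    rw [e2, ← e1]
    ring
  exact Nat.eq_of_mul_eq_mul_left (by omega) e3

end Pool.CND
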