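import Pool.Agent.H37.CNU.Stmts

/-!
# Row UNN: the higher ramification groups and the conductor of the `SU_3(q)` cover
-/

set_option autoImplicit false

namespace Pool.CND

open Finset Matrix

namespace UNNaux

/-- a strictly upper triangular `3 × 3` matrix has cube `0` -/
theorem cube_zero {F : Type} [Field F] (N : Matrix (Fin 3) (Fin 3) F) (h00 : N 0 0 = 0)
    (h10 : N 1 0 = 0) (h20 : N 2 0 = 0) (h11 : N 1 1 = 0) (h21 : N 2 1 = 0) (h22 : N 2 2 = 0) :
    N ^ 3 = 0 := by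
  rw [pow_succ, pow_two]
  ext i j
  simp only [Matrix.mul_apply, Fin.sum_univ_three, Matrix.zero_apply]
  fin_cases i <;> fin_cases j <;> simp [h00, h10, h20, h11, h21, h22]

theorem cst_inj {k F L : Type} [Field k] [Field F] [Field L] [Algebra F k] [Algebra k L] {a b : F}
    (h : cst k F L a = cst k F L b) : a = b :=
  (algebraMap F k).injective ((algebraMap k L).injective h)

theorem cst_zero {k F L : Type} [Field k] [Field F] [Field L] [Algebra F k] [Algebra k L] :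
    cst k F L (0 : F) = 0 := by simp [cst]

theorem cst_one {k F L : Type} [Field k] [Field F] [Field L] [Algebra F k] [Algebra k L] :
    cst k F L (1 : F) = 1 := by simp [cst]

/-- the shape of the unipotent elements -/
structure Uni {F : Type} [Field F] {σ : F →+* F} (q : ℕ) (g : SU3 σ) : Prop where
  h00 : g.1.1 0 0 = 1
  h10 : g.1.1 1 0 = 0
  h20 : g.1.1 2 0 = 0
  h11 : g.1.1 1 1 = 1
  h21 : g.1.1 2 1 = 0
  h22 : g.1.1 2 2 = 1
  h01 : g.1.1 0 1 = g.1.1 1 2 ^ q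

theorem Uni.pow {F : Type} [Field F] {σ : F →+* F} {q : ℕ} {g : SU3 σ} (h : Uni q g) (p : ℕ)
    [Fact p.Prime] [CharP F p] : g ^ (p ^ 2) = 1 := by
  apply Subtype.ext
  apply Subtype.ext
  have e1 : ((g ^ (p ^ 2)).1).1 = (g.1.1) ^ (p ^ 2) := by
    rw [Subgroup.coe_pow]
    exact Matrix.SpecialLinearGroup.coe_pow _ _
  rw [e1]
  set N : Matrix (Fin 3) (Fin 3) F := g.1.1 - 1 with hN
  have e2 : g.1.1 = 1 + N := by rw [hN]; abel
  have e6 : (1 + N) ^ (p ^ 2) = 1 ^ (p ^ 2) + N ^ (p ^ 2) :=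
    add_pow_char_pow_of_commute (p := p) (n := 2) (Commute.one_left N)
  rw [e2, e6, one_pow]
  have e3 : N ^ 3 = 0 := by
    apply cube_zero
    · rw [hN, Matrix.sub_apply, h.h00, Matrix.one_apply_eq, sub_self]
    · rw [hN, Matrix.sub_apply, h.h10, Matrix.one_apply_ne (by decide), sub_self]
    · rw [hN, Matrix.sub_apply, h.h20, Matrix.one_apply_ne (by decide), sub_self]
    · rw [hN, Matrix.sub_apply, h.h11, Matrix.one_apply_eq, sub_self]
    · rw [hN, Matrix.sub_apply, h.h21, Matrix.one_apply_ne (by decide), sub_self]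
    · rw [hN, Matrix.sub_apply, h.h22, Matrix.one_apply_eq, sub_self]
  have e4 : 3 ≤ p ^ 2 := by
    have := (Fact.out : p.Prime).two_le
    nlinarith
  have e5 : N ^ (p ^ 2) = 0 := by
    obtain ⟨r, hr⟩ := Nat.exists_eq_add_of_le e4
    rw [hr, pow_add, e3, zero_mul]
  rw [e5, add_zero]
  rfl

theorem Uni.eq_one {F : Type} [Field F] {σ : F →+* F} {q : ℕ} {g : SU3 σ} (hq : q ≠ 0)
    (h : Uni q g) (h12 : g.1.1 1 2 = 0) (h02 : g.1.1 0 2 = 0) : g = 1 := by
  apply Subtype.ext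
  apply Matrix.SpecialLinearGroup.ext
  intro i j
  have h01 := h.h01
  rw [h12, zero_pow hq] at h01
  fin_cases i <;> fin_cases j
  · simpa using h.h00
  · simpa using h01
  · simpa using h02
  · simpa using h.h10
  · simpa using h.h11
  · simpa using h12
  · simpa using h.h20
  · simpa using h.h21
  · simpa using h.h22

section

variable {k F L : Type} [Field k] [Field F] [Field L] [Algebra F k] [Algebra k L]
  {q : ℕ} {σ : F →+* F} {t : L} {X : Fin 3 → L} {ρ : SU3 σ →* (L ≃ₐ[k] L)} {P : Place k L}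

theorem act_0 (H : Su k F L q σ t X ρ P) {g : SU3 σ} (h10 : g.1.1 1 0 = 0)
    (h20 : g.1.1 2 0 = 0) : ρ g (X 0) = cst k F L (g.1.1 0 0) * X 0 := by
  rw [H.act_X g 0, Fin.sum_univ_three, h10, h20, cst_zero]
  ring

theorem act_1 (H : Su k F L q σ t X ρ P) {g : SU3 σ} (h : Uni q g) :
    ρ g (X 1) = cst k F L (g.1.1 0 1) * X 0 + X 1 := by
  rw [H.act_X g 1, Fin.sum_univ_three, h.h11, h.h21, cst_zero, cst_one]
  ring

theorem act_2 (H : Su k F L q σ t X ρ P) {g : SU3 σ} (h : Uni q g) :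
    ρ g (X 2) = cst k F L (g.1.1 0 2) * X 0 + cst k F L (g.1.1 1 2) * X 1 + X 2 := by
  rw [H.act_X g 2, Fin.sum_univ_three, h.h22, cst_one]
  ring

theorem cst_ne {a : F} (ha : a ≠ 0) : algebraMap F k a ≠ 0 ∧ cst k F L a ≠ 0 := by
  have h3 : algebraMap F k a ≠ 0 := (map_ne_zero_iff _ (algebraMap F k).injective).2 ha
  exact ⟨h3, (map_ne_zero_iff _ (algebraMap k L).injective).2 h3⟩

theorem ord_cst_mul {a : F} (ha : a ≠ 0) {z : L} (hz : z ≠ 0) :
    P.ord (cst k F L a * z) = P.ord z := by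
  rw [P.ord_mul _ _ (cst_ne ha).2 hz]
  have : P.ord (cst k F L a) = 0 := P.ord_const _ (cst_ne (L := L) ha).1
  rw [this, zero_add]

/-- the value of `b` -/
theorem b_eq (hLO2 : S_LO2) (hINJ : S_INJ) {p : ℕ} (H : Su k F L q σ t X ρ P) (hp : p.Prime)
    (hch : CharP k p) (hq2 : 2 ≤ q) {g : SU3 σ} (hF : Fixes P (ρ g)) (h : Uni q g)
    (h1 : g ≠ 1) (hb : 1 ≤ P.b (ρ g)) (hρ : ρ g ≠ 1) :
    (g.1.1 1 2 ≠ 0 → P.b (ρ g) = ((q ^ 2 - q + 1 : ℕ) : ℤ)) ∧
      (g.1.1 1 2 = 0 → P.b (ρ g) = ((q ^ 3 + 1 : ℕ) : ℤ)) := by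
  obtain ⟨-, x0, x1, x2⟩ := H.ne
  have hpi : ρ g P.pi ≠ P.pi := fun hcon => hρ (hINJ k L P (ρ g) P.pi hF P.pi_ne P.ord_pi hcon)
  have hb' : P.ord (ρ g P.pi - P.pi) = P.b (ρ g) + 1 := by
    rw [Place.b]
    ring
  have hy : ¬ (p : ℤ) ∣ P.ord (X 2) := by
    rw [H.ord_2, dvd_neg]
    intro hcon
    have h2 : p ∣ 1 := by exact_mod_cast hcon
    exact hp.one_lt.ne' (Nat.dvd_one.mp h2)
  obtain ⟨-, h7⟩ := (hLO2 p k L P (ρ g) P.pi (P.b (ρ g)) hp hch hF P.pi_ne P.ord_pi hb hpi hb'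
    (X 2) x2).1 hy
  have e1 : ρ g (X 2) - X 2 = cst k F L (g.1.1 1 2) * X 1 + cst k F L (g.1.1 0 2) * X 0 := by
    rw [act_2 H h]
    ring
  rw [e1, H.ord_2] at h7
  constructor
  · intro h12
    have h2 : P.Ge (cst k F L (g.1.1 0 2) * X 0)
        (P.ord (cst k F L (g.1.1 1 2) * X 1) + 1) := by
      rw [ord_cst_mul h12 x1, H.ord_1]
      by_cases h02 : g.1.1 0 2 = 0
      · rw [h02, cst_zero, zero_mul]
        exact P.ge_zero _
      · right
        rw [ord_cst_mul h02 x0, H.ord_0]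
        have : q ^ 2 - q + 1 ≤ q ^ 3 := by
          have h3 : q ^ 2 ≤ q ^ 3 := Nat.pow_le_pow_right (by omega) (by norm_num)
          have h4 : q ≤ q ^ 2 := Nat.le_self_pow (by norm_num) q
          omega
        exact_mod_cast this
    rw [(P.ord_add_of_lt (mul_ne_zero (cst_ne h12).2 x1) h2).2, ord_cst_mul h12 x1, H.ord_1] at h7
    push_cast at h7 ⊢
    linarith
  · intro h12
    have h02 : g.1.1 0 2 ≠ 0 := fun hc => h1 (h.eq_one (by omega) h12 hc)
    rw [h12, cst_zero, zero_mul, zero_add, ord_cst_mul h02 x0, H.ord_0] at h7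
    push_cast at h7 ⊢
    linarith

theorem ram0_iff {G : Type} [Group G] (P : Place k L) (ρ : G →* (L ≃ₐ[k] L)) (g : G) :
    g ∈ ram P ρ 0 ↔ Fixes P (ρ g) := by
  constructor
  · exact fun h => h.1
  · intro h
    refine ⟨h, fun u _ h1 => ?_⟩
    by_cases e : ρ g u = u
    · exact Or.inl e
    · right
      have h2 : P.Ge u 1 := by
        have h3 := P.ge_ord u
        rw [h1] at h3
        exact h3
      have h4 := (P.ge_iff (sub_ne_zero.2 e) 1).1 (P.ge_sub (h.ge h2) h2)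
      rw [Nat.cast_zero, zero_add]
      exact h4

theorem one_mem_ram {G : Type} [Group G] (P : Place k L) (ρ : G →* (L ≃ₐ[k] L)) (i : ℕ) :
    (1 : G) ∈ ram P ρ i := by
  refine ⟨by rw [map_one]; exact Fixes.one, ?_⟩
  intro u _ _
  left
  rw [map_one, AlgEquiv.one_apply]

/-- elements of `p`-power order in `ram 0` are in `ram 1` -/
theorem tmo_pow (hTMO : S_TMO) {G : Type} [Group G] (P : Place k L) (ρ : G →* (L ≃ₐ[k] L))
    {p : ℕ} (hp : p.Prime) (hch : CharP k p) :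
    ∀ (r : ℕ) (g : G), Fixes P (ρ g) → g ^ (p ^ r) = 1 → g ∈ ram P ρ 1 := by
  intro r
  induction r with
  | zero =>
    intro g _ h
    rw [pow_zero, pow_one] at h
    rw [h]
    exact one_mem_ram P ρ 1
  | succ r ih =>
    intro g hg h
    refine hTMO p k L G P ρ hp hch g ((ram0_iff P ρ g).2 hg) (ih (g ^ p) ?_ ?_)
    · rw [map_pow]
      exact hg.pow p
    · rw [← pow_mul, ← pow_succ']
      exact h

end

end UNNaux

open UNNaux in
theorem unn_thm (hUNF : S_UNF) (hUNB : S_UNB) (hRAM : S_RAM) (hLON : S_LON) (hINJ : S_INJ)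
    (hTMO : S_TMO) (hLO2 : S_LO2) : S_UNN := by
  intro p k F L _ _ _ _ _ f q σ t X ρ P hp hch hf hq hF hσ H
  have hfix : ∀ g : SU3 σ, Fixes P (ρ g) ↔ g.1.1 1 0 = 0 ∧ g.1.1 2 0 = 0 :=
    hUNF p k F L f q σ t X ρ P hp hch hf hq hF hσ H
  obtain ⟨hshape, hc0, hc1, hc2⟩ := hUNB p F f q σ hp hf hq hF hσ
  obtain ⟨-, x0, x1, x2⟩ := H.ne
  have hq2 : 2 ≤ q := by
    rw [hq]
    exact le_trans hp.two_le (Nat.le_self_pow (by omega) p)
  haveI : Fact p.Prime := ⟨hp⟩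
  haveI : CharP F p := (algebraMap F k).charP (algebraMap F k).injective p
  -- the shape of the elements with first column `(1, 0, 0)`
  have huni : ∀ g : SU3 σ, g.1.1 1 0 = 0 → g.1.1 2 0 = 0 → g.1.1 0 0 = 1 → Uni q g := by
    intro g h10 h20 h00
    obtain ⟨s1, s2, s3, s4, s5⟩ := hshape g h10 h20
    rw [h00, one_pow, mul_one] at s3 s4
    exact ⟨h00, h10, h20, s3, s1, s4, s5 h00⟩
  -- the action is faithful on the Borel group
  have hinj : ∀ g : SU3 σ, g.1.1 1 0 = 0 → g.1.1 2 0 = 0 → ρ g = 1 → g = 1 := by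
    intro g h10 h20 h
    have a0 := act_0 H h10 h20
    rw [h, AlgEquiv.one_apply] at a0
    have h00 : g.1.1 0 0 = 1 := by
      apply cst_inj (k := k) (L := L)
      rw [cst_one]
      have h2 : (cst k F L (g.1.1 0 0) - 1) * X 0 = 0 := by linear_combination -a0
      rcases mul_eq_zero.1 h2 with h3 | h3
      · linear_combination h3
      · exact absurd h3 x0
    have hU := huni g h10 h20 h00
    have a1 := act_1 H hU
    have a2 := act_2 H hU
    rw [h, AlgEquiv.one_apply] at a1 a2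
    have h01 : g.1.1 0 1 = 0 := by
      apply cst_inj (k := k) (L := L)
      rw [cst_zero]
      have h2 : cst k F L (g.1.1 0 1) * X 0 = 0 := by linear_combination -a1
      exact (mul_eq_zero.1 h2).resolve_right x0
    have h12 : g.1.1 1 2 = 0 := by
      have h3 := hU.h01
      rw [h01] at h3
      exact eq_zero_of_pow_eq_zero h3.symm
    have h02 : g.1.1 0 2 = 0 := by
      apply cst_inj (k := k) (L := L)
      rw [cst_zero]
      rw [h12, cst_zero, zero_mul, add_zero] at a2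
      have h2 : cst k F L (g.1.1 0 2) * X 0 = 0 := by linear_combination -a2
      exact (mul_eq_zero.1 h2).resolve_right x0
    exact hU.eq_one (by omega) h12 h02
  -- the value of `b`
  have hbval : ∀ g : SU3 σ, g.1.1 1 0 = 0 → g.1.1 2 0 = 0 → g.1.1 0 0 = 1 → g ≠ 1 →
      ρ g ≠ 1 ∧ (g.1.1 1 2 ≠ 0 → P.b (ρ g) = ((q ^ 2 - q + 1 : ℕ) : ℤ)) ∧
      (g.1.1 1 2 = 0 → P.b (ρ g) = ((q ^ 3 + 1 : ℕ) : ℤ)) := by
    intro g h10 h20 h00 h1
    have hU := huni g h10 h20 h00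
    have hFx := (hfix g).2 ⟨h10, h20⟩
    have hρ : ρ g ≠ 1 := fun h => h1 (hinj g h10 h20 h)
    have hr1 : g ∈ ram P ρ 1 := tmo_pow hTMO P ρ hp hch 2 g hFx (hU.pow p)
    have h3 := ((hRAM k L (SU3 σ) P ρ g 1 le_rfl).1 hr1).2.resolve_left hρ
    have hb : 1 ≤ P.b (ρ g) := by exact_mod_cast h3
    exact ⟨hρ, b_eq hLO2 hINJ H hp hch hq2 hFx hU h1 hb hρ⟩
  -- elements of `ram i`, `i ≥ 1`
  have h00of : ∀ (g : SU3 σ) (i : ℕ), 1 ≤ i → g ∈ ram P ρ i →
      g.1.1 1 0 = 0 ∧ g.1.1 2 0 = 0 ∧ g.1.1 0 0 = 1 := by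
    intro g i hi hg
    obtain ⟨h1, h2⟩ := (hRAM k L (SU3 σ) P ρ g i hi).1 hg
    obtain ⟨h10, h20⟩ := (hfix g).1 h1
    refine ⟨h10, h20, ?_⟩
    by_cases hρ : ρ g = 1
    · rw [hinj g h10 h20 hρ]
      rfl
    have h3 : (i : ℤ) ≤ P.b (ρ g) := h2.resolve_left hρ
    have hi1 : (1 : ℤ) ≤ i := by exact_mod_cast hi
    by_contra hne
    have h4 : P.Ge (ρ g P.pi - P.pi) (1 + 1) := by
      right
      have : P.ord (ρ g P.pi - P.pi) = P.b (ρ g) + 1 := by
        rw [Place.b]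
        ring
      rw [this]
      linarith
    have h5 := (hLON k L P (ρ g) P.pi 1 h1 P.pi_ne P.ord_pi (by norm_num) h4 (X 0)).resolve_right x0
    have e1 : ρ g (X 0) - X 0 = cst k F L (g.1.1 0 0 - 1) * X 0 := by
      rw [act_0 H h10 h20]
      simp only [cst, map_sub, map_one]
      ring
    have h6 : g.1.1 0 0 - 1 ≠ 0 := sub_ne_zero.2 hne
    rw [e1] at h5
    have h8 := h5.resolve_left (mul_ne_zero (cst_ne h6).2 x0)
    rw [ord_cst_mul h6 x0] at h8
    linarith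
  set e : ℕ := q ^ 2 - q + 1 with he
  have hqq : q ≤ q ^ 2 := Nat.le_self_pow (by norm_num) q
  have he1 : 1 ≤ e := by omega
  have hel : e ≤ q ^ 3 + 1 := by
    have h3 : q ^ 2 ≤ q ^ 3 := Nat.pow_le_pow_right (by omega) (by norm_num)
    omega
  -- the ramification groups
  have r0 : ram P ρ 0 = {g : SU3 σ | g.1.1 1 0 = 0 ∧ g.1.1 2 0 = 0} := by
    ext g
    rw [ram0_iff, hfix]
    rfl
  have r1 : ∀ i, 1 ≤ i → i ≤ e →
      ram P ρ i = {g : SU3 σ | g.1.1 1 0 = 0 ∧ g.1.1 2 0 = 0 ∧ g.1.1 0 0 = 1} := by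
    intro i hi hie
    ext g
    constructor
    · exact h00of g i hi
    · rintro ⟨h10, h20, h00⟩
      by_cases hg : g = 1
      · rw [hg]
        exact one_mem_ram P ρ i
      obtain ⟨hρ, b1, b2⟩ := hbval g h10 h20 h00 hg
      refine (hRAM k L (SU3 σ) P ρ g i hi).2 ⟨(hfix g).2 ⟨h10, h20⟩, Or.inr ?_⟩
      by_cases h12 : g.1.1 1 2 = 0
      · rw [b2 h12]
        exact_mod_cast hie.trans hel
      · rw [b1 h12]
        exact_mod_cast hie
  have r2 : ∀ i, e < i → i ≤ q ^ 3 + 1 → ram P ρ i =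
      {g : SU3 σ | g.1.1 1 0 = 0 ∧ g.1.1 2 0 = 0 ∧ g.1.1 0 0 = 1 ∧ g.1.1 1 2 = 0} := by
    intro i hi hil
    have hi1 : 1 ≤ i := by omega
    ext g
    constructor
    · intro hg
      obtain ⟨h10, h20, h00⟩ := h00of g i hi1 hg
      refine ⟨h10, h20, h00, ?_⟩
      by_contra h12
      have hg1 : g ≠ 1 := by
        rintro rfl
        exact h12 rfl
      obtain ⟨hρ, b1, -⟩ := hbval g h10 h20 h00 hg1
      have h3 := ((hRAM k L (SU3 σ) P ρ g i hi1).1 hg).2.resolve_left hρ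
      rw [b1 h12] at h3
      have : i ≤ e := by exact_mod_cast h3
      omega
    · rintro ⟨h10, h20, h00, h12⟩
      by_cases hg : g = 1
      · rw [hg]
        exact one_mem_ram P ρ i
      obtain ⟨hρ, -, b2⟩ := hbval g h10 h20 h00 hg
      refine (hRAM k L (SU3 σ) P ρ g i hi1).2 ⟨(hfix g).2 ⟨h10, h20⟩, Or.inr ?_⟩
      rw [b2 h12]
      exact_mod_cast hil
  have r3 : ram P ρ (q ^ 3 + 1 + 1) = {1} := by
    ext g
    rw [Set.mem_singleton_iff]
    constructor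
    · intro hg
      obtain ⟨h10, h20, h00⟩ := h00of g _ (by omega) hg
      by_contra hg1
      obtain ⟨hρ, b1, b2⟩ := hbval g h10 h20 h00 hg1
      have h3 := ((hRAM k L (SU3 σ) P ρ g _ (by omega)).1 hg).2.resolve_left hρ
      by_cases h12 : g.1.1 1 2 = 0
      · rw [b2 h12] at h3
        have : q ^ 3 + 1 + 1 ≤ q ^ 3 + 1 := by exact_mod_cast h3
        omega
      · rw [b1 h12] at h3
        have : q ^ 3 + 1 + 1 ≤ e := by exact_mod_cast h3
        omega
    · rintro rfl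
      exact one_mem_ram P ρ _
  have n0 : (ram P ρ 0).ncard = q ^ 3 * (q ^ 2 - 1) := by
    rw [r0, ← hc0]
    rfl
  have n1 : ∀ i, 1 ≤ i → i ≤ e → (ram P ρ i).ncard = q ^ 3 := by
    intro i h1 h2
    rw [r1 i h1 h2, ← hc1]
    rfl
  have n2 : ∀ i, e < i → i ≤ q ^ 3 + 1 → (ram P ρ i).ncard = q := by
    intro i h1 h2
    rw [r2 i h1 h2]
    conv_rhs => rw [← hc2]
    rfl
  refine ⟨q ^ 3 + 1, ?_, r3, ?_⟩
  · intro h
    have h3 := congrArg Set.ncard h
    rw [Set.ncard_singleton] at h3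
    by_cases h4 : q ^ 3 + 1 ≤ e
    · rw [n1 _ (by omega) h4] at h3
      have : 2 ^ 3 ≤ q ^ 3 := Nat.pow_le_pow_left hq2 3
      omega
    · rw [n2 _ (by omega) le_rfl] at h3
      omega
  · have hsum : ∑ i ∈ Icc 1 (q ^ 3 + 1), ((ram P ρ i).ncard : ℚ) =
        e * (q : ℚ) ^ 3 + ((q : ℚ) ^ 3 + 1 - e) * q := by
      have h5 : ∀ i ∈ Icc 1 (q ^ 3 + 1), ((ram P ρ i).ncard : ℚ) =
          if i ≤ e then (q : ℚ) ^ 3 else (q : ℚ) := by
        intro i hi
        obtain ⟨hi1, hi2⟩ := Finset.mem_Icc.1 hi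
        split_ifs with h6
        · rw [n1 i hi1 h6]
          push_cast
          rfl
        · rw [n2 i (by omega) hi2]
      rw [Finset.sum_congr rfl h5, Finset.sum_ite, Finset.sum_const, Finset.sum_const]
      have f1 : (Icc 1 (q ^ 3 + 1)).filter (fun i => i ≤ e) = Icc 1 e := by
        ext i
        simp only [Finset.mem_filter, Finset.mem_Icc]
        omega
      have f2 : (Icc 1 (q ^ 3 + 1)).filter (fun i => ¬ i ≤ e) = Icc (e + 1) (q ^ 3 + 1) := by
        ext i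
        simp only [Finset.mem_filter, Finset.mem_Icc]
        omega
      rw [f1, f2, Nat.card_Icc, Nat.card_Icc, nsmul_eq_mul, nsmul_eq_mul, Nat.add_sub_cancel]
      have f3 : ((q ^ 3 + 1 + 1 - (e + 1) : ℕ) : ℚ) = (q : ℚ) ^ 3 + 1 - e := by
        have : q ^ 3 + 1 + 1 - (e + 1) = q ^ 3 + 1 - e := by omega
        rw [this, Nat.cast_sub hel]
        push_cast
        ring
      rw [f3]
    rw [hsum, n0]
    have q0 : (q : ℚ) ≠ 0 := by
      rw [Nat.cast_ne_zero]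
      omega
    have q1 : (q : ℚ) - 1 ≠ 0 := by
      have : (2 : ℚ) ≤ q := by exact_mod_cast hq2
      linarith
    have q2 : (q : ℚ) + 1 ≠ 0 := by positivity
    have q3 : ((q ^ 2 - 1 : ℕ) : ℚ) = ((q : ℚ) - 1) * (q + 1) := by
      rw [Nat.cast_sub (Nat.one_le_pow _ _ (by omega))]
      push_cast
      ring
    have q4 : (e : ℚ) = (q : ℚ) ^ 2 - q + 1 := by
      rw [he]
      push_cast [Nat.cast_sub hqq]
      ring
    rw [Nat.cast_mul (q ^ 3), q3, Nat.cast_mul q (q - 1), Nat.cast_sub (by omega : 1 ≤ q), q4]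
    push_cast
    have q5 : ((q : ℚ) - 1) * (q + 1) ≠ 0 := mul_ne_zero q1 q2
    rw [div_eq_div_iff (mul_ne_zero q0 q1) (mul_ne_zero (pow_ne_zero 3 q0) q5)]
    ring

end Pool.CND
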